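import Pool.Agent.H19.AS.Win
import Pool.Agent.H34.VW.ThreeW
import Pool.Agent.H62.VK.Main

/-!
# [H82 AS THREE] Three consecutive primes at all scales

`PosAlongS.shift`, `LowerS.shift`: the index moves by one. `three_goodS`: clause (4); `ratioS`: clause (3) from the
shape `![-1, τ]` at a scale `h`.
-/

set_option autoImplicit false

namespace Pool.Agent.H82.AS

open Filter Finset Pool.Agent.H82.LS Pool.Agent.H62.VK Pool.Agent.H34.RC Pool.Agent.H62.VW Pool.Agent.H34.VW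
  Pool.Agent.H19.AS

/-- the count at a scale is large -/
theorem large_scale (D : ℕ) (C : ℝ) : ∃ B : ℝ, 0 < B ∧ ∀ (M : ℕ) (t : ℝ), t ≤ 1 → B ≤ t * Real.log M →
    0 < t ∧ C ≤ t ^ D * M := by
  have h1 : ∀ᶠ y : ℝ in atTop, C * y ^ D ≤ Real.exp y := by
    have h2 : Tendsto (fun y : ℝ => Real.exp y / y ^ D) atTop atTop := Real.tendsto_exp_div_pow_atTop D
    filter_upwards [h2.eventually_ge_atTop C, eventually_gt_atTop (0 : ℝ)] with y hy hy0
    rwa [le_div_iff₀ (by positivity)] at hy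
  obtain ⟨B0, hB0⟩ := eventually_atTop.1 h1
  refine ⟨max B0 1, lt_max_of_lt_right one_pos, fun M t ht hB => ?_⟩
  have hB1 : 1 ≤ t * Real.log M := (le_max_right _ _).trans hB
  have hB2 : B0 ≤ t * Real.log M := (le_max_left _ _).trans hB
  have hl : 0 ≤ Real.log M := Real.log_natCast_nonneg M
  have hl0 : 0 < Real.log M := by
    rcases hl.eq_or_lt with h2 | h2
    · rw [← h2, mul_zero] at hB1
      linarith
    · exact h2
  have ht0 : 0 < t := by
    by_contra h2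
    have h3 : t * Real.log M ≤ 0 := mul_nonpos_of_nonpos_of_nonneg (not_lt.1 h2) hl
    linarith
  have hM0 : (0 : ℝ) < M := by
    rcases Nat.eq_zero_or_pos M with h2 | h2
    · rw [h2, Nat.cast_zero, Real.log_zero] at hl0
      exact absurd hl0 (lt_irrefl _)
    · exact_mod_cast h2
  refine ⟨ht0, ?_⟩
  have h3 : B0 ≤ Real.log M := hB2.trans (by nlinarith)
  have h4 := hB0 _ h3
  rw [Real.exp_log hM0] at h4
  have h5 : 1 ≤ (t * Real.log M) ^ D := one_le_pow₀ hB1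
  rw [mul_pow] at h5
  have h6 : 0 < Real.log (M : ℝ) ^ D := by positivity
  have h7 : 0 < t ^ D := by positivity
  rcases le_or_gt C 0 with hC | hC
  · exact hC.trans (by positivity)
  · have h8 : C ≤ t ^ D * (C * Real.log (M : ℝ) ^ D) := by
      have h9 : C * 1 ≤ C * (t ^ D * Real.log (M : ℝ) ^ D) := mul_le_mul_of_nonneg_left h5 hC.le
      linarith
    exact h8.trans (mul_le_mul_of_nonneg_left h4 h7.le)

/-- one scale -/
theorem shift_card {P P' : ℕ → Prop} {i0 M : ℕ} (hP : ∀ i, i0 ≤ i → P i → 1 ≤ i ∧ P' (i - 1)) :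
    (({n : ℕ | n < M ∧ P n}).ncard : ℝ) ≤ i0 + (({n : ℕ | n < M ∧ P' n}).ncard : ℝ) := by
  have hfin : ({n : ℕ | n < M ∧ P' n}).Finite := (Set.finite_lt_nat M).subset fun n hn => hn.1
  have h3 : {n : ℕ | n < M ∧ P n} ⊆ {n : ℕ | n < i0} ∪ (fun n => n + 1) '' {n : ℕ | n < M ∧ P' n} := by
    rintro i ⟨hi, hPi⟩
    by_cases hc : i < i0
    · exact Or.inl hc
    · right
      obtain ⟨h4, h5⟩ := hP i (not_lt.1 hc) hPi
      exact ⟨i - 1, ⟨by omega, h5⟩, by show i - 1 + 1 = i; omega⟩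
  have h4 : ({n : ℕ | n < M ∧ P n}).ncard ≤ i0 + ({n : ℕ | n < M ∧ P' n}).ncard := by
    refine (Set.ncard_le_ncard h3 ((Set.finite_lt_nat i0).union (hfin.image _))).trans ?_
    refine (Set.ncard_union_le _ _).trans (Nat.add_le_add ?_ (Set.ncard_image_le hfin))
    rw [show {n : ℕ | n < i0} = ((range i0 : Finset ℕ) : Set ℕ) by ext n; simp, Set.ncard_coe_finset, card_range]
  exact_mod_cast h4

/-- the index moves by one, along scales -/
theorem PosAlongS.shift {D : ℕ} {A : Set (ℕ × ℝ)} {P P' : ℝ → ℕ → Prop} (h : PosAlongS D A P)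
    (hP : ∀ᶠ i : ℕ in atTop, ∀ t : ℝ, 0 < t → t ≤ 1 → P t i → 1 ≤ i ∧ P' t (i - 1)) : PosAlongS D A P' := by
  obtain ⟨d, hd, hS⟩ := h
  obtain ⟨i0, hi0⟩ := eventually_atTop.1 hP
  refine ⟨d / 2, by positivity, fun B => ?_⟩
  obtain ⟨B1, hB1, hB2⟩ := large_scale D (2 * i0 / d)
  obtain ⟨⟨M, t⟩, ⟨haA, hcard⟩, ht, hB⟩ := hS (max B B1)
  obtain ⟨ht0, hbig⟩ := hB2 M t ht ((le_max_right _ _).trans hB)
  refine ⟨⟨M, t⟩, ⟨haA, ?_⟩, ht, (le_max_left _ _).trans hB⟩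
  have h5 := shift_card (P := P t) (P' := P' t) (i0 := i0) (M := M) fun i hi hPi => hi0 i hi t ht0 ht hPi
  rw [div_le_iff₀ hd] at hbig
  have h6 : d * t ^ D * (M : ℝ) ≤ i0 + (({n : ℕ | n < M ∧ P' t n}).ncard : ℝ) := le_trans hcard h5
  show d / 2 * t ^ D * (M : ℝ) ≤ (({n : ℕ | n < M ∧ P' t n}).ncard : ℝ)
  nlinarith

/-- the index moves by one, at all scales -/
theorem LowerS.shift {D : ℕ} {P P' : ℝ → ℕ → Prop} (h : LowerS D P)
    (hP : ∀ᶠ i : ℕ in atTop, ∀ t : ℝ, 0 < t → t ≤ 1 → P t i → 1 ≤ i ∧ P' t (i - 1)) : LowerS D P' := by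
  obtain ⟨d, B, hd, hS⟩ := h
  obtain ⟨i0, hi0⟩ := eventually_atTop.1 hP
  obtain ⟨B1, hB1, hB2⟩ := large_scale D (2 * i0 / d)
  refine ⟨d / 2, max B B1, by positivity, fun M t ht hB => ?_⟩
  have hcard := hS M t ht ((le_max_left _ _).trans hB)
  obtain ⟨ht0, hbig⟩ := hB2 M t ht ((le_max_right _ _).trans hB)
  have h5 := shift_card (P := P t) (P' := P' t) (i0 := i0) (M := M) fun i hi hPi => hi0 i hi t ht0 ht hPi
  rw [div_le_iff₀ hd] at hbig
  nlinarith

/-- the logarithms of two consecutive primes -/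
theorem log_pred (η : ℝ) (hη : 0 < η) : ∀ᶠ i : ℕ in atTop, 1 ≤ i ∧
    0 < Real.log (Nat.nth Nat.Prime (i - 1)) ∧
    Real.log (Nat.nth Nat.Prime (i - 1)) ≤ Real.log (Nat.nth Nat.Prime i) ∧
    Real.log (Nat.nth Nat.Prime i) ≤ (1 + η) * Real.log (Nat.nth Nat.Prime (i - 1)) := by
  have hmono := Nat.nth_strictMono Nat.infinite_setOfPred_prime
  have hbig : ∀ᶠ i : ℕ in atTop, Real.log 2 / η ≤ Real.log (Nat.nth Nat.Prime (i - 1)) := by
    have h2 : Tendsto (fun i : ℕ => Real.log (Nat.nth Nat.Prime (i - 1))) atTop atTop := by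
      refine Real.tendsto_log_atTop.comp (tendsto_natCast_atTop_atTop.comp ?_)
      exact (hmono.tendsto_atTop).comp (tendsto_sub_atTop_nat 1)
    exact h2.eventually_ge_atTop _
  filter_upwards [hbig, eventually_ge_atTop 1] with i hi hi1
  have hlog' : 0 < Real.log (Nat.nth Nat.Prime (i - 1)) :=
    Real.log_pos (by exact_mod_cast (Nat.prime_nth_prime (i - 1)).one_lt)
  refine ⟨hi1, hlog', ?_, ?_⟩
  · refine Real.log_le_log (by exact_mod_cast (Nat.prime_nth_prime (i - 1)).pos) ?_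
    exact_mod_cast hmono.monotone (Nat.sub_le i 1)
  · obtain ⟨q, hq1, hq2, hq3⟩ := Nat.exists_prime_lt_and_le_two_mul (Nat.nth Nat.Prime (i - 1))
      (Nat.prime_nth_prime (i - 1)).ne_zero
    have h4 : Nat.nth Nat.Prime i ≤ q := by
      have h5 : i - 1 < Nat.count Nat.Prime q := by
        rw [← hmono.lt_iff_lt, Nat.nth_count hq1]
        exact hq2
      have h6 := hmono.monotone (show i ≤ Nat.count Nat.Prime q by omega)
      rwa [Nat.nth_count hq1] at h6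
    have h5 : ((Nat.nth Nat.Prime i : ℕ) : ℝ) ≤ 2 * (Nat.nth Nat.Prime (i - 1) : ℕ) := by
      exact_mod_cast h4.trans hq3
    have h6 : Real.log (Nat.nth Nat.Prime i) ≤ Real.log 2 + Real.log (Nat.nth Nat.Prime (i - 1)) := by
      rw [← Real.log_mul (by norm_num) (by exact_mod_cast (Nat.prime_nth_prime (i - 1)).ne_zero)]
      exact Real.log_le_log (by exact_mod_cast (Nat.prime_nth_prime i).pos) h5
    rw [div_le_iff₀ hη] at hi
    linarith

/-- clause (4): three consecutive primes at every scale along `A` -/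
theorem three_goodS {D r L s Q : ℕ} {χ : ℕ → Fin r} {A : Set (ℕ × ℝ)}
    (hG : ∃ c : ℝ, 0 < c ∧ ∀ w : Fin (2 + 1) → ℕ, (∀ j, Nat.Coprime (w j) Q) → ∀ x : Fin 2 → ℝ, (∀ j, |x j| ≤ c) →
      ∃ q : Fin r, ∀ e : ℝ, 0 < e → PosAlongS D A (fun t n =>
        ShapeW 1 L s Q w χ q x c (t * Real.log (Nat.nth Nat.Prime n)) e (Nat.nth Nat.Prime n))) :
    ∃ c : ℝ, 0 < c ∧ ∀ w : Fin 3 → ℕ, (∀ j, Nat.Coprime (w j) Q) → ∀ u v : ℝ, 0 ≤ u → u ≤ c → 0 ≤ v → v ≤ c →
      ∀ e : ℝ, 0 < e → PosAlongS D A (fun t n =>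
        |(gap n : ℝ) - u * (t * Real.log (Nat.nth Nat.Prime n))| < e * (t * Real.log (Nat.nth Nat.Prime n)) ∧
        |(gap (n + 1) : ℝ) - v * (t * Real.log (Nat.nth Nat.Prime n))| <
          e * (t * Real.log (Nat.nth Nat.Prime n)) ∧
        ∀ j : Fin 3, Nat.nth Nat.Prime (n + (j : ℕ)) ≡ s [MOD L] ∧
          Nat.nth Nat.Prime (n + (j : ℕ)) ≡ w j [MOD Q]) := by
  obtain ⟨c, hc, h⟩ := hG
  obtain ⟨c', hc'd⟩ : ∃ c', c' = min (c / 2) 1 := ⟨_, rfl⟩
  have hc'0 : 0 < c' := hc'd ▸ lt_min (by positivity) one_pos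
  have hc'1 : c' ≤ c / 2 := hc'd ▸ min_le_left _ _
  have hc'2 : c' ≤ 1 := hc'd ▸ min_le_right _ _
  refine ⟨c', hc'0, ?_⟩
  intro r hr u v hu0 huc hv0 hvc e he
  obtain ⟨δ, hδd⟩ : ∃ δ, δ = min (e / 8) (c / 4) := ⟨_, rfl⟩
  have hδ : 0 < δ := hδd ▸ lt_min (by positivity) (by positivity)
  have hδ1 : δ ≤ e / 8 := hδd ▸ min_le_left _ _
  have hδ2 : δ ≤ c / 4 := hδd ▸ min_le_right _ _
  obtain ⟨u', hu'd⟩ : ∃ u', u' = max u δ := ⟨_, rfl⟩
  obtain ⟨v', hv'd⟩ : ∃ v', v' = max v δ := ⟨_, rfl⟩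
  have hu1 : u ≤ u' := hu'd ▸ le_max_left _ _
  have hu2 : δ ≤ u' := hu'd ▸ le_max_right _ _
  have hu3 : u' ≤ u + δ := hu'd ▸ max_le (by linarith) (by linarith)
  have hu4 : u' ≤ c / 2 := hu'd ▸ max_le (by linarith) (by linarith)
  have hv1 : v ≤ v' := hv'd ▸ le_max_left _ _
  have hv2 : δ ≤ v' := hv'd ▸ le_max_right _ _
  have hv3 : v' ≤ v + δ := hv'd ▸ max_le (by linarith) (by linarith)
  have hv4 : v' ≤ c / 2 := hv'd ▸ max_le (by linarith) (by linarith)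
  obtain ⟨q, h1⟩ := h ![r 1, r 0, r 2] (by
    intro j
    fin_cases j
    · exact hr 1
    · exact hr 0
    · exact hr 2) ![-u', v'] (by
    intro j
    fin_cases j
    · show |(-u' : ℝ)| ≤ c
      rw [abs_neg, abs_of_pos (by linarith)]
      linarith
    · show |(v' : ℝ)| ≤ c
      rw [abs_of_pos (by linarith)]
      linarith)
  refine PosAlongS.shift (h1 (δ / 2) (by positivity)) ?_
  obtain ⟨η, hηd⟩ : ∃ η, η = min (1 : ℝ) (e / 4) := ⟨_, rfl⟩
  have hη : 0 < η := hηd ▸ lt_min one_pos (by positivity)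
  have hη1 : η ≤ 1 := hηd ▸ min_le_left _ _
  have hη2 : η ≤ e / 4 := hηd ▸ min_le_right _ _
  filter_upwards [log_pred η hη] with i hi t ht0 ht1 hS
  obtain ⟨hi1, hlog', hle, hge⟩ := hi
  have hlog : 0 < Real.log (Nat.nth Nat.Prime i) := hlog'.trans_le hle
  obtain ⟨k1, k2, k3, k4, k5, k6⟩ := three_shw (by positivity) (by linarith) (by linarith) (by linarith) (by linarith)
    (mul_pos ht0 hlog) (shw_of_shapeW hS)
  refine ⟨k1, ?_⟩
  have hlog : 0 < t * Real.log (Nat.nth Nat.Prime i) := mul_pos ht0 hlog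
  have hlog' : 0 < t * Real.log (Nat.nth Nat.Prime (i - 1)) := mul_pos ht0 hlog'
  have hle : t * Real.log (Nat.nth Nat.Prime (i - 1)) ≤ t * Real.log (Nat.nth Nat.Prime i) :=
    mul_le_mul_of_nonneg_left hle ht0.le
  have hge : t * Real.log (Nat.nth Nat.Prime i) ≤ (1 + η) * (t * Real.log (Nat.nth Nat.Prime (i - 1))) := by
    have h9 := mul_le_mul_of_nonneg_left hge ht0.le
    linarith
  generalize t * Real.log (Nat.nth Nat.Prime i) = l at hlog hle hge k5 k6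
  generalize t * Real.log (Nat.nth Nat.Prime (i - 1)) = l' at hlog' hle hge
  have main : ∀ g a a' : ℝ, 0 ≤ a → a ≤ 1 → a ≤ a' → a' ≤ a + δ → |g - a' * l| < δ / 2 * l → |g - a * l'| < e * l' := by
    intro g a a' ha0 ha1 haa haa' hg
    have q1 : |a' * l - a * l'| ≤ δ * l + a * (η * l') := by
      rw [abs_of_nonneg (by nlinarith)]
      nlinarith
    have q2 : l ≤ 2 * l' := by nlinarith
    calc |g - a * l'| = |(g - a' * l) + (a' * l - a * l')| := by congr 1; ring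
      _ ≤ |g - a' * l| + |a' * l - a * l'| := abs_add_le _ _
      _ < e * l' := by
        have q3 : δ / 2 * l ≤ δ * l' := by nlinarith
        have q4 : δ * l ≤ 2 * δ * l' := by nlinarith
        have q5 : a * (η * l') ≤ e / 4 * l' := by
          have : a * η ≤ e / 4 := by nlinarith
          nlinarith
        have q6 : δ * l' ≤ e / 8 * l' := mul_le_mul_of_nonneg_right hδ1 hlog'.le
        nlinarith
  have ei : i - 1 + 1 = i := by omega
  refine ⟨?_, ?_, ?_⟩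
  · exact main _ u u' hu0 (by linarith) hu1 hu3 k5
  · rw [ei]
    exact main _ v v' hv0 (by linarith) hv1 hv3 k6
  · intro j
    fin_cases j
    · exact k2
    · show Nat.nth Nat.Prime (i - 1 + 1) ≡ s [MOD L] ∧ Nat.nth Nat.Prime (i - 1 + 1) ≡ r 1 [MOD Q]
      rw [ei]
      exact k3
    · show Nat.nth Nat.Prime (i - 1 + 2) ≡ s [MOD L] ∧ Nat.nth Nat.Prime (i - 1 + 2) ≡ r 2 [MOD Q]
      rw [show i - 1 + 2 = i + 1 by omega]
      exact k4

/-- the tolerance used in clause (3) -/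
noncomputable def tol (τ e : ℝ) : ℝ := min (min (1 / 4) (τ / 4)) (min (e / 4) (e / (4 * (1 + τ))))

theorem tol_pos {τ e : ℝ} (hτ : 0 < τ) (he : 0 < e) : 0 < tol τ e :=
  lt_min (lt_min (by norm_num) (by positivity)) (lt_min (by positivity) (by positivity))

/-- clause (3): the quotient of two consecutive gaps at every scale, from the shape `![-1, τ]` -/
theorem ratioS {D L s : ℕ} {τ e c' : ℝ} (hτ : 0 < τ) (he : 0 < e) (hc' : 0 < c')
    (h : LowerS D (fun t n => ∃ h : ℝ, c' * (t * Real.log (Nat.nth Nat.Prime n)) < h ∧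
      h < tol τ e * (t * Real.log (Nat.nth Nat.Prime n)) ∧
      Pool.Agent.H62.VK.Shape 1 L s ![-1, τ] (2 + 2 * τ) h (tol τ e) (Nat.nth Nat.Prime n))) :
    LowerS D (fun t n => |(gap (n + 1) : ℝ) / gap n - τ| < e ∧
      c' / 2 * (t * Real.log (Nat.nth Nat.Prime n)) < (gap n : ℝ) ∧
      (gap n : ℝ) < e * (t * Real.log (Nat.nth Nat.Prime n)) ∧
      ∀ j ≤ 2, Nat.nth Nat.Prime (n + j) ≡ s [MOD L]) := by
  refine LowerS.shift h ?_
  filter_upwards [log_pred 1 one_pos] with i hi t ht0 ht1 hS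
  obtain ⟨hi1, hlog', hle, hge⟩ := hi
  obtain ⟨h, hh1, hh2, hS⟩ := hS
  have hlog : 0 < Real.log (Nat.nth Nat.Prime i) := hlog'.trans_le hle
  have hh : 0 < h := lt_trans (mul_pos hc' (mul_pos ht0 hlog)) hh1
  obtain ⟨κ, hκd⟩ : ∃ κ, κ = tol τ e := ⟨_, rfl⟩
  have hκ : 0 < κ := hκd ▸ tol_pos hτ he
  have hκ1 : κ ≤ 1 / 4 := hκd ▸ (min_le_left _ _).trans (min_le_left _ _)
  have hκ2 : κ ≤ τ / 4 := hκd ▸ (min_le_left _ _).trans (min_le_right _ _)
  have hκ3 : κ ≤ e / 4 := hκd ▸ (min_le_right _ _).trans (min_le_left _ _)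
  have hκ4 : κ * (4 * (1 + τ)) ≤ e := by
    have h5 : κ ≤ e / (4 * (1 + τ)) := hκd ▸ (min_le_right _ _).trans (min_le_right _ _)
    rwa [le_div_iff₀ (by positivity)] at h5
  rw [← hκd] at hh2 hS
  have hS' : Shw 1 L s 1 (fun _ => 1) ![-1, τ] (2 + 2 * τ) κ h (Nat.nth Nat.Prime i) := by
    obtain ⟨a1, a2, a3⟩ := hS
    refine ⟨⟨a1, Nat.modEq_one⟩, fun j => ?_, fun q hq hqp hqd => ?_⟩
    · obtain ⟨Z, hZ, hZ2⟩ := a3 j
      refine ⟨Z, hZ, fun q hq => ?_⟩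
      obtain ⟨b1, b2, b3, b4⟩ := hZ2 q hq
      exact ⟨b1, b2, ⟨b3, Nat.modEq_one⟩, b4⟩
    · obtain ⟨b1, j, b2⟩ := a2 q hq hqp hqd
      exact ⟨j, ⟨b1, Nat.modEq_one⟩, b2⟩
  obtain ⟨k1, k2, k3, k4, k5, k6⟩ := three_shw (r := fun _ => 1) hκ (by linarith) (by linarith) (by linarith)
    (by linarith) hh hS'
  refine ⟨k1, ?_⟩
  have ei : i - 1 + 1 = i := by omega
  rw [one_mul, abs_lt] at k5
  have hlog : 0 < t * Real.log (Nat.nth Nat.Prime i) := mul_pos ht0 hlog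
  have hlog' : 0 < t * Real.log (Nat.nth Nat.Prime (i - 1)) := mul_pos ht0 hlog'
  have hle : t * Real.log (Nat.nth Nat.Prime (i - 1)) ≤ t * Real.log (Nat.nth Nat.Prime i) :=
    mul_le_mul_of_nonneg_left hle ht0.le
  have hge : t * Real.log (Nat.nth Nat.Prime i) ≤ (1 + 1) * (t * Real.log (Nat.nth Nat.Prime (i - 1))) := by
    have h9 := mul_le_mul_of_nonneg_left hge ht0.le
    linarith
  generalize t * Real.log (Nat.nth Nat.Prime i) = l at hlog hle hge hh1 hh2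
  generalize t * Real.log (Nat.nth Nat.Prime (i - 1)) = l' at hlog' hle hge
  have hg0 : 3 / 4 * h ≤ (gap (i - 1) : ℝ) := by nlinarith [k5.1]
  have hg1 : (gap (i - 1) : ℝ) ≤ 5 / 4 * h := by nlinarith [k5.2]
  have hgp : 0 < (gap (i - 1) : ℝ) := by linarith
  refine ⟨?_, ?_, ?_, ?_⟩
  · rw [ei]
    have e1 : (gap i : ℝ) / gap (i - 1) - τ = ((gap i : ℝ) - τ * gap (i - 1)) / gap (i - 1) := by
      field_simp
    rw [e1, abs_div, abs_of_pos hgp, div_lt_iff₀ hgp]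
    have e2 : (gap i : ℝ) - τ * gap (i - 1) = ((gap i : ℝ) - τ * h) - τ * ((gap (i - 1) : ℝ) - h) := by ring
    have e3 : |(gap (i - 1) : ℝ) - h| ≤ κ * h := by
      rw [abs_le]
      constructor
      · linarith [k5.1]
      · linarith [k5.2]
    calc |(gap i : ℝ) - τ * gap (i - 1)| = |((gap i : ℝ) - τ * h) - τ * ((gap (i - 1) : ℝ) - h)| := by rw [e2]
      _ ≤ |(gap i : ℝ) - τ * h| + |τ * ((gap (i - 1) : ℝ) - h)| := abs_sub _ _
      _ = |(gap i : ℝ) - τ * h| + τ * |(gap (i - 1) : ℝ) - h| := by rw [abs_mul, abs_of_pos hτ]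
      _ < κ * h + τ * (κ * h) := add_lt_add_of_lt_of_le k6 (mul_le_mul_of_nonneg_left e3 hτ.le)
      _ = κ * (4 * (1 + τ)) * (h / 4) := by ring
      _ ≤ e * (h / 4) := mul_le_mul_of_nonneg_right hκ4 (by positivity)
      _ ≤ e * gap (i - 1) := mul_le_mul_of_nonneg_left (by linarith) he.le
  · nlinarith
  · nlinarith
  · intro j hj
    interval_cases j
    · rw [add_zero]
      exact k2.1
    · rw [ei]
      exact k3.1
    · rw [show i - 1 + 2 = i + 1 by omega]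
      exact k4.1

end Pool.Agent.H82.AS
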