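import Pool.Agent.H82.AS.Three
import Pool.Agent.H62.AS.Shp

/-!
# [H82 AS RATIO] Quotients of consecutive gaps at every scale, with moduli, words and prescribed ratios

`ratio_genS`: clause (3) in the general form.
-/

set_option autoImplicit false

namespace Pool.Agent.H82.AS

open Filter Finset Pool.Agent.H82.LS Pool.Agent.H62.VK Pool.Agent.H34.RC Pool.Agent.H62.VW Pool.Agent.H34.VW
  Pool.Agent.H19.AS

/-- one place: from the shape `![-1, τ]` at the prime of index `i` to the three primes of indices `i - 1, i, i + 1` -/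
theorem ratio_point {r L s Q : ℕ} {χ : ℕ → Fin r} {q : Fin r} {w : Fin 3 → ℕ} {τ e c κ R h l l' : ℝ} {i : ℕ}
    (hτ : 0 < τ) (he : 0 < e) (hκ : 0 < κ) (hκt : κ ≤ tol τ e) (hR1 : 2 ≤ R) (hR2 : 2 * τ ≤ R)
    (hc : 0 < c) (hl' : 0 < l') (hle : l' ≤ l) (hge : l ≤ 2 * l') (hh1 : c * l < h) (hh2 : h < κ * l)
    (hS : ShapeW 1 L s Q ![w 1, w 0, w 2] χ q ![-1, τ] R h κ (Nat.nth Nat.Prime i)) :
    1 ≤ i ∧ |(gap (i - 1 + 1) : ℝ) / gap (i - 1) - τ| < e ∧ c / 2 * l' < (gap (i - 1) : ℝ) ∧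
      (gap (i - 1) : ℝ) < e * l' ∧
      ∀ j : Fin 3, Nat.nth Nat.Prime (i - 1 + (j : ℕ)) ≡ s [MOD L] ∧
        Nat.nth Nat.Prime (i - 1 + (j : ℕ)) ≡ w j [MOD Q] := by
  have hl : 0 < l := hl'.trans_le hle
  have hh : 0 < h := lt_trans (mul_pos hc hl) hh1
  have hκ1 : κ ≤ 1 / 4 := hκt.trans ((min_le_left _ _).trans (min_le_left _ _))
  have hκ2 : κ ≤ τ / 4 := hκt.trans ((min_le_left _ _).trans (min_le_right _ _))
  have hκ3 : κ ≤ e / 4 := hκt.trans ((min_le_right _ _).trans (min_le_left _ _))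
  have hκ4 : κ * (4 * (1 + τ)) ≤ e := by
    have h5 : κ ≤ e / (4 * (1 + τ)) := hκt.trans ((min_le_right _ _).trans (min_le_right _ _))
    rwa [le_div_iff₀ (by positivity)] at h5
  obtain ⟨k1, k2, k3, k4, k5, k6⟩ := three_shw hκ (by linarith) (by linarith) (by linarith)
    (by linarith) hh (shw_of_shapeW hS)
  refine ⟨k1, ?_⟩
  have ei : i - 1 + 1 = i := by omega
  rw [one_mul, abs_lt] at k5
  have hg0 : 3 / 4 * h ≤ (gap (i - 1) : ℝ) := by nlinarith [k5.1]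
  have hg1 : (gap (i - 1) : ℝ) ≤ 5 / 4 * h := by nlinarith [k5.2]
  have hgp : 0 < (gap (i - 1) : ℝ) := by linarith
  refine ⟨?_, ?_, ?_, ?_⟩
  · rw [ei]
    have e1 : (gap i : ℝ) / gap (i - 1) - τ = ((gap i : ℝ) - τ * gap (i - 1)) / gap (i - 1) := by
      field_simp
    rw [e1, abs_div, abs_of_pos hgp, div_lt_iff₀ hgp]
    have e2 : (gap i : ℝ) - τ * gap (i - 1) = ((gap i : ℝ) - τ * h) - τ * ((gap (i - 1) : ℝ) - h) := by ring
    have e3 : |(gap (i - 1) : ℝ) - h| ≤ κ * h := by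
      rw [abs_le]
      constructor
      · linarith [k5.1]
      · linarith [k5.2]
    calc |(gap i : ℝ) - τ * gap (i - 1)| = |((gap i : ℝ) - τ * h) - τ * ((gap (i - 1) : ℝ) - h)| := by rw [e2]
      _ ≤ |(gap i : ℝ) - τ * h| + |τ * ((gap (i - 1) : ℝ) - h)| := abs_sub _ _
      _ = |(gap i : ℝ) - τ * h| + τ * |(gap (i - 1) : ℝ) - h| := by rw [abs_mul, abs_of_pos hτ]
      _ < κ * h + τ * (κ * h) := add_lt_add_of_lt_of_le k6 (mul_le_mul_of_nonneg_left e3 hτ.le)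
      _ = κ * (4 * (1 + τ)) * (h / 4) := by ring
      _ ≤ e * (h / 4) := mul_le_mul_of_nonneg_right hκ4 (by positivity)
      _ ≤ e * gap (i - 1) := mul_le_mul_of_nonneg_left (by linarith) he.le
  · nlinarith
  · nlinarith
  · intro j
    fin_cases j
    · exact k2
    · show Nat.nth Nat.Prime (i - 1 + 1) ≡ s [MOD L] ∧ Nat.nth Nat.Prime (i - 1 + 1) ≡ w 1 [MOD Q]
      rw [ei]
      exact k3
    · show Nat.nth Nat.Prime (i - 1 + 2) ≡ s [MOD L] ∧ Nat.nth Nat.Prime (i - 1 + 2) ≡ w 2 [MOD Q]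
      rw [show i - 1 + 2 = i + 1 by omega]
      exact k4

/-- clause (3) in the general form: quotients of two consecutive gaps at every scale, uniformly, with moduli, words and
prescribed quotients -/
theorem ratio_genS (hT : Pool.Agent.H34.AS.ThmS) :
    ∃ D : ℕ, ∀ (L s : ℕ), 0 < L → Nat.Coprime s L → ∀
      (Q : ℕ → ℕ), (∀ i, 0 < Q i) → (∀ i, Nat.Coprime (Q i) L) → (∀ i j, i ≠ j → Nat.Coprime (Q i) (Q j)) →
      ∀ W : ℕ → Fin 3 → ℕ, (∀ i j, Nat.Coprime (W i j) (Q i)) →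
      ∀ (τ : ℕ → ℝ) (R0 e : ℝ), (∀ i, 0 < τ i) → (∀ i, τ i ≤ R0) → 0 < e → ∃ c : ℝ, 0 < c ∧
        LowerS D (fun t n => ∃ i < 200,
          |(gap (n + 1) : ℝ) / gap n - τ i| < e ∧
          c * (t * Real.log (Nat.nth Nat.Prime n)) < (gap n : ℝ) ∧
          (gap n : ℝ) < e * (t * Real.log (Nat.nth Nat.Prime n)) ∧
          ∀ j : Fin 3, Nat.nth Nat.Prime (n + (j : ℕ)) ≡ s [MOD L] ∧
            Nat.nth Nat.Prime (n + (j : ℕ)) ≡ W i j [MOD Q i]) := by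
  obtain ⟨D, hD⟩ := Pool.Agent.H62.AS.shape_genS hT 2 1 1 (by norm_num) le_rfl
  refine ⟨D, fun L s hL hs Q hQ hQL hQQ W hW τ R0 e hτ hτR he => ?_⟩
  obtain ⟨κ, hκ, hκt⟩ := Pool.Agent.H62.AS.exists_small (range 200) (fun i => tol (τ i) e)
    (fun i _ => tol_pos (hτ i) he)
  obtain ⟨R, hRd⟩ : ∃ R, R = 2 + 2 * R0 := ⟨_, rfl⟩
  have hR0 : 0 < R0 := (hτ 0).trans_le (hτR 0)
  have hR : 0 < R := by linarith
  obtain ⟨c, hc, hlow⟩ := hD L s hL hs (fun _ => (0 : Fin 1)) Q hQ hQL hQQ (fun i => ![W i 1, W i 0, W i 2]) (by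
    intro i j
    fin_cases j
    · exact hW i 1
    · exact hW i 0
    · exact hW i 2) (fun i => ![-1, τ i]) R κ hR (by
    intro i j
    fin_cases j
    · show |(-1 : ℝ)| ≤ R
      rw [abs_neg, abs_one]
      linarith
    · show |τ i| ≤ R
      rw [abs_of_pos (hτ i)]
      linarith [hτR i]) hκ
  refine ⟨c / 2, by positivity, ?_⟩
  refine LowerS.shift hlow ?_
  filter_upwards [log_pred 1 one_pos] with n hn t ht0 ht1 hS
  obtain ⟨hn1, hlog', hle, hge⟩ := hn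
  obtain ⟨i, hi, q, h, hh1, hh2, hS⟩ := hS
  have hi' : i < 200 := hi
  obtain ⟨a1, a2, a3, a4, a5⟩ := ratio_point (hτ i) he hκ (hκt i (mem_range.2 hi')).le (by linarith)
    (by linarith [hτR i]) hc (mul_pos ht0 hlog') (mul_le_mul_of_nonneg_left hle ht0.le) (by
      have h9 := mul_le_mul_of_nonneg_left hge ht0.le
      linarith) hh1 hh2 hS
  exact ⟨a1, i, hi', a2, a3, a4, a5⟩

end Pool.Agent.H82.AS
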